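import Pool.Agent.H10.IEP.Targets

/-!
# MP_e37c09_lc, row ND of the board iep_modules: no function with many values
-/

open Ordinal Cardinal Order Set
open scoped ZFSet

universe u

namespace Pool.Agent.H13.IEP

open _root_.HD Pool.Agent.H10.IEP

/-- the supremum of the range -/
theorem exists_sup {δ η θ : Ordinal.{u}} {j : ZFSet.{u} → ZFSet.{u}} (hE : Emb δ η θ j)
    {κ : Ordinal.{u}} (hκ : κ < η) (hlim : IsSuccLimit κ) :
    ∃ ρ : Ordinal.{u}, ρ ≤ Jo j κ ∧ (∀ x < κ, Jo j x < ρ) ∧ ∀ y < ρ, ∃ x < κ, y < Jo j x := by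
  have hup : ∀ x < κ, Jo j x < Jo j κ := fun x hx => (hE.lt_iff (hx.trans hκ) hκ).2 hx
  have hex : ∃ ρ : Ordinal.{u}, ∀ x < κ, Jo j x < ρ := ⟨Jo j κ, hup⟩
  refine ⟨sInf {ρ : Ordinal.{u} | ∀ x < κ, Jo j x < ρ}, csInf_le' hup, csInf_mem hex, ?_⟩
  intro y hy
  have h1 : ¬ ∀ x < κ, Jo j x < y := fun h => by
    have h2 : y ∈ {ρ : Ordinal.{u} | ∀ x < κ, Jo j x < ρ} := h
    exact absurd (csInf_le' h2) (not_le.2 hy)
  push Not at h1
  obtain ⟨x, hx, hxy⟩ := h1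
  have hsx : succ x < κ := hlim.succ_lt hx
  refine ⟨succ x, hsx, hxy.trans_lt ?_⟩
  exact (hE.lt_iff (hx.trans hκ) (hsx.trans hκ)).2 (lt_succ x)

theorem pf_ND (hXA : T_XA.{u}) (hXC : T_XC.{u}) (hXE : T_XE.{u}) (hNP : T_NP.{u})
    (hNQ : T_NQ.{u}) (hPF : T_PF.{u}) (hLX : T_LX.{u}) (hSG : T_SG.{u}) : T_ND.{u} := by
  intro D hExt hGN
  have hDreg : D.IsRegular := hGN.1
  have hDω : ℵ₀ < D := hGN.2.2.1
  refine ⟨hGN.1, hGN.2.1, hGN.2.2.1, ?_⟩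
  intro μ K hωμ hμD hK hDK F hF hFn hall
  obtain ⟨α, hDα, hαs, hcof, hns⟩ := hNP D hGN
  obtain ⟨β0, hβ0⟩ := hXC F hF
  obtain ⟨η, hη, θ, j, hj⟩ := hXA D.ord hExt (max (max β0 K.ord) (succ D).ord)
  have hβη : β0 < η := ((le_max_left _ _).trans (le_max_left _ _)).trans_lt hη
  have hKη : K.ord < η := ((le_max_right _ _).trans (le_max_left _ _)).trans_lt hη
  have hsη : (succ D).ord < η := (le_max_right _ _).trans_lt hη
  have hαη : α < η := hαs.trans hsη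
  obtain ⟨hFη, hjF⟩ := hβ0 _ _ _ _ hj hβη
  obtain ⟨hFn', K', hK', hJK, hall'⟩ := hNQ _ _ _ _ hj μ hμD K hK hKη F hFη hFn hall
  have hαγ : α < Jo j D.ord := hαη.trans hj.Jo_crit
  have hDK' : D.ord < K'.ord := by
    rw [← hJK]
    exact (Cardinal.ord_lt_ord.2 hDK).trans_le (hj.le_Jo hKη)
  obtain ⟨β1, hβ1⟩ := hXC (j F) hjF
  generalize j F = F' at *
  generalize Jo j D.ord = γ at *
  obtain ⟨η', hη', θ', k, hk⟩ := hXA D.ord hExt (max (max β1 K'.ord) γ)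
  have hβη' : β1 < η' := ((le_max_left _ _).trans (le_max_left _ _)).trans_lt hη'
  have hKη' : K'.ord < η' := ((le_max_right _ _).trans (le_max_left _ _)).trans_lt hη'
  have hγη' : γ < η' := (le_max_right _ _).trans_lt hη'
  have hαη' : α < η' := hαγ.trans hγη'
  obtain ⟨hFη', -⟩ := hβ1 _ _ _ _ hk hβη'
  have hKlim : IsSuccLimit K'.ord := Cardinal.isSuccLimit_ord hK'.aleph0_le
  obtain ⟨ρ, hρK, hlt, hsup⟩ := exists_sup hk hKη' hKlim
  have hωD : (ω : Ordinal.{u}) < D.ord := by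
    rw [← Cardinal.ord_aleph0]
    exact Cardinal.ord_lt_ord.2 hDω
  have hSol : SolP D.ord η' θ' k μ K'.ord ρ :=
    { emb := hk
      dom := hωD
      dreg := by rw [hDreg.cof_ord]
      oμ := hωμ
      μδ := hμD
      kη := hKη'
      kcof := by rw [hK'.cof_ord]; exact hDK'.le
      lt := hlt
      sup := hsup }
  have hPh := hPF _ _ _ _ _ _ _ hSol γ hγη' F' hFη' hFn' hall'
  have hDη' : D.ord < η' := hDα.trans hαη'
  have hαk : α < Jo k α :=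
    hαη'.trans (hk.Jo_crit.trans ((hk.lt_iff hDη' hαη').2 hDα))
  have hαγk : Jo k α < Jo k γ := (hk.lt_iff hαη' hγη').2 hαγ
  have hcont := hXE _ _ _ _ hk α hαη' ℵ₀ Cardinal.isRegular_aleph0
    (Cardinal.ord_lt_ord.2 hDω) (show α.cof.ord = _ by rw [hcof])
  have hSml : Sml μ ρ (k F') (Jo k α) := by
    refine ⟨α, hαk, Jo k, fun a b hab hb => ?_, fun a ha => ?_, hcont.1, fun i hi => ?_⟩
    · exact (hk.lt_iff ((hab.trans hb).trans hαη') (hb.trans hαη')).2 hab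
    · exact (hk.lt_iff (ha.trans hαη') hαη').2 ha
    · rw [hPh i (hi.trans hαγk)]
      constructor
      · rintro ⟨i0, h0, rfl⟩
        exact ⟨i0, (hk.lt_iff (h0.trans hγη') hαη').1 hi, rfl⟩
      · rintro ⟨a, ha, rfl⟩
        exact ⟨a, ha.trans hαγ, rfl⟩
  -- elementarity
  have hLoc : Loc.{u} fun v => (v 1).IsOrdinal ∧ (v 0).IsOrdinal ∧ (v 3).IsOrdinal ∧
      Sml (v 1).rank (v 0).rank (v 2) (v 3).rank :=
    hLX.ren (fun n => if n = 0 then 1 else if n = 1 then 0 else n)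
  have hμη' : μ < η' := hμD.trans hDη'
  have htr := hk.trl_ex (R := fun x w => (w 0).IsOrdinal ∧ x.IsOrdinal ∧ (w 2).IsOrdinal ∧
      Sml (w 0).rank x.rank (w 1) (w 2).rank) hLoc [μ.toZFSet, F', α.toZFSet] (by
    simp only [List.mem_cons, List.not_mem_nil, or_false, forall_eq_or_imp, forall_eq]
    exact ⟨Gd.ord.2 hμη', hFη', Gd.ord.2 hαη'⟩)
  have hρθ : ρ < θ' := hρK.trans_lt (hk.Jo_lt hKη')
  obtain ⟨x, -, -, -, -, hx⟩ := htr.2 ⟨ρ.toZFSet, Gd.ord.2 hρθ, by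
    show (k μ.toZFSet).IsOrdinal ∧ (ρ.toZFSet).IsOrdinal ∧ (k α.toZFSet).IsOrdinal ∧
      Sml (k μ.toZFSet).rank ρ.toZFSet.rank (k F') (k α.toZFSet).rank
    rw [hk.fix μ hμD, hk.ord hαη', rank_toZFSet, rank_toZFSet, rank_toZFSet]
    exact ⟨ZFSet.isOrdinal_toZFSet _, ZFSet.isOrdinal_toZFSet _, ZFSet.isOrdinal_toZFSet _,
      hSml⟩⟩
  have hx' : Sml μ x.rank F' α := by
    have h : Sml (μ.toZFSet).rank x.rank F' (α.toZFSet).rank := hx
    rwa [rank_toZFSet, rank_toZFSet] at h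
  exact hns (hSG _ _ _ _ hjF hx')

end Pool.Agent.H13.IEP
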